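import Pool.Agent.MP_aa1ef7_ag.H20.Spec

/-! The graded facts for a traceless diagonalisable linear vector field. -/

namespace Pool.Agent.MP_aa1ef7_ag.H20

open MvPolynomial

namespace GradB

variable {K : Type} [CommRing K]

/-- The diagonal field. -/
noncomputable def dg (lam : K) (A : Pl K) : Pl K :=
  C lam * (X 0 * pderiv 0 A - X 1 * pderiv 1 A)

theorem coeff_Xd (i : Fin 2) (A : Pl K) (m : Fin 2 →₀ ℕ) :
    coeff m (X i * pderiv i A) = (m i : K) * coeff m A := by
  induction A using MvPolynomial.induction_on' with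
  | monomial u a =>
    rw [X_mul_pderiv_monomial, coeff_smul, coeff_monomial]
    split_ifs with h
    · rw [h, nsmul_eq_mul]
    · simp
  | add p q hp hq => rw [map_add, mul_add, coeff_add, hp, hq, coeff_add, mul_add]

theorem coeff_dg (lam : K) (A : Pl K) (m : Fin 2 →₀ ℕ) :
    coeff m (dg lam A) = lam * ((m 0 : K) - m 1) * coeff m A := by
  rw [dg, coeff_C_mul, coeff_sub, coeff_Xd, coeff_Xd]; ring

/-- The exponent `(k, k)`. -/
noncomputable def kk (k : ℕ) : Fin 2 →₀ ℕ := Finsupp.single 0 k + Finsupp.single 1 k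

theorem kk0 (k : ℕ) : kk k 0 = k := by simp [kk]

theorem kk1 (k : ℕ) : kk k 1 = k := by simp [kk]

theorem pow_kk (ρ : K) (k : ℕ) : C ρ * (X 0 * X 1 : Pl K) ^ k = monomial (kk k) ρ := by
  rw [mul_pow, X_pow_eq_monomial, X_pow_eq_monomial, monomial_mul, C_mul_monomial]
  simp [kk]

theorem eq_kk {m : Fin 2 →₀ ℕ} {k : ℕ} (h0 : m 0 = k) (h1 : m 1 = k) : kk k = m := by
  ext i
  fin_cases i
  · exact (kk0 k).trans h0.symm
  · exact (kk1 k).trans h1.symm

theorem deg_of {A : Pl K} {n : ℕ} (h : A.IsHomogeneous n) {m : Fin 2 →₀ ℕ} (hm : coeff m A ≠ 0) :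
    m 0 + m 1 = n := by
  have := h hm
  rw [Finsupp.weight_apply, Finsupp.sum_fintype _ _ (by simp)] at this
  simpa using this

theorem hom_of {A : Pl K} {n : ℕ} (h : ∀ m : Fin 2 →₀ ℕ, coeff m A ≠ 0 → m 0 + m 1 = n) :
    A.IsHomogeneous n := fun m hm => by
  rw [Finsupp.weight_apply, Finsupp.sum_fintype _ _ (by simp)]
  simpa using h m hm

theorem diag_only {A : Pl K} {n : ℕ} (h : A.IsHomogeneous n)
    (h0 : ∀ m : Fin 2 →₀ ℕ, m 0 ≠ m 1 → coeff m A = 0) :
    ∃ ρ : K, (Odd n → ρ = 0) ∧ A = C ρ * (X 0 * X 1) ^ (n / 2) := by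
  classical
  refine ⟨coeff (kk (n / 2)) A, fun ho => ?_, ?_⟩
  · by_contra hne
    have := deg_of h hne
    rw [kk0, kk1] at this
    obtain ⟨r, hr⟩ := ho
    omega
  · ext m
    rw [pow_kk, coeff_monomial]
    split_ifs with hm
    · rw [hm]
    · by_contra hne
      have h1 := deg_of h hne
      have h2 : m 0 = m 1 := by
        by_contra h3
        exact hne (h0 m h3)
      exact hm (eq_kk (by omega) (by omega))

theorem lin_hom (x y : K) : (C x * X 0 + C y * X 1 : Pl K).IsHomogeneous 1 :=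
  ((isHomogeneous_X K 0).C_mul x).add ((isHomogeneous_X K 1).C_mul y)

theorem pd0 (x y : K) : pderiv 0 (C x * X 0 + C y * X 1 : Pl K) = C x := by simp

theorem pd1 (x y : K) : pderiv 1 (C x * X 0 + C y * X 1 : Pl K) = C y := by simp

theorem hom2 {A : Pl K} {n : ℕ} (hA : A.IsHomogeneous n) (x y z w : K) :
    (aeval ![C x * X 0 + C y * X 1, C z * X 0 + C w * X 1] A : Pl K).IsHomogeneous n := by
  have := hA.aeval (n := 1) (![C x * X 0 + C y * X 1, C z * X 0 + C w * X 1] : Fin 2 → Pl K)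
    fun i => by fin_cases i <;> exact lin_hom _ _
  rwa [one_mul] at this

variable [Algebra ℚ K]

theorem unit_sub {i j : ℕ} (h : i ≠ j) : IsUnit ((i : K) - j) := by
  have h1 : ((i : ℚ) - j) ≠ 0 := sub_ne_zero.2 (by exact_mod_cast h)
  simpa using (isUnit_iff_ne_zero.2 h1).map (algebraMap ℚ K)

theorem dg1 {lam : K} (hl : IsUnit lam) {G : Pl K} {n : ℕ} (h : G.IsHomogeneous n) :
    ∃ (A : Pl K) (ρ : K), A.IsHomogeneous n ∧ (Odd n → ρ = 0) ∧
      G = dg lam A + C ρ * (X 0 * X 1) ^ (n / 2) := by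
  classical
  let w : (Fin 2 →₀ ℕ) → K := fun m => Ring.inverse (lam * ((m 0 : K) - m 1))
  let A : Pl K := ∑ m ∈ G.support, monomial m (w m * coeff m G)
  have hA : ∀ m, coeff m A = w m * coeff m G := fun m => by
    simp only [A, coeff_sum, coeff_monomial, Finset.sum_ite_eq', mem_support_iff]
    split_ifs with hm
    · rfl
    · rw [not_not.1 hm, mul_zero]
  have hAn : A.IsHomogeneous n := hom_of fun m hm => deg_of h fun h0 => hm (by
    rw [hA, h0, mul_zero])
  obtain ⟨ρ, h1, h2⟩ := diag_only (A := G - dg lam A) (n := n) (hom_of fun m hm => deg_of h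
    fun h0 => hm (by rw [coeff_sub, coeff_dg, hA, h0]; simp)) fun m hm => by
      rw [coeff_sub, coeff_dg, hA, ← mul_assoc,
        Ring.mul_inverse_cancel _ (hl.mul (unit_sub hm)), one_mul, sub_self]
  exact ⟨A, ρ, hAn, h1, by rw [← h2]; ring⟩

end GradB

open GradB

theorem gradB : GradS := by
  intro K _ _ a b c lam s t hl hlam hδ n L q hL hq
  obtain ⟨μ, hμ⟩ := hl.exists_right_inv
  obtain ⟨ε, hε⟩ := hδ.exists_right_inv
  obtain ⟨h2, hh⟩ := (unit_sub (K := K) (i := 2) (j := 0) (by norm_num)).exists_right_inv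
  rw [Nat.cast_zero, sub_zero, Nat.cast_ofNat] at hh
  let φ : Pl K →ₐ[K] Pl K := aeval
    ![C (s * a + t * c + lam * s) * X 0 + C (s * b - t * a + lam * t) * X 1,
      C (s * a + t * c - lam * s) * X 0 + C (s * b - t * a - lam * t) * X 1]
  let ψ : Pl K →ₐ[K] Pl K := aeval
    ![C (-(h2 * μ * ε) * (-(s * b - t * a - lam * t))) * X 0 +
        C (-(h2 * μ * ε) * (s * b - t * a + lam * t)) * X 1,
      C (-(h2 * μ * ε) * (s * a + t * c - lam * s)) * X 0 +
        C (-(h2 * μ * ε) * (-(s * a + t * c + lam * s))) * X 1]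
  have hC : ∀ x, φ (C x) = C x := fun x => φ.commutes x
  have hC' : ∀ x, ψ (C x) = C x := fun x => ψ.commutes x
  have hone : h2 * μ * ε * (2 * lam * (b * s ^ 2 - 2 * a * s * t - c * t ^ 2)) = 1 := by
    linear_combination (lam * μ * ((b * s ^ 2 - 2 * a * s * t - c * t ^ 2) * ε)) * hh +
      ((b * s ^ 2 - 2 * a * s * t - c * t ^ 2) * ε) * hμ + hε
  have hone' := congrArg (C : K →+* Pl K) hone
  have hlam' := congrArg (C : K →+* Pl K) hlam
  have hε' := congrArg (C : K →+* Pl K) hε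
  simp only [map_mul, map_sub, map_add, map_pow, map_one, map_ofNat] at hone' hlam' hε'
  have hφ0 : φ (X 0) = C (s * a + t * c + lam * s) * X 0 + C (s * b - t * a + lam * t) * X 1 :=
    aeval_X _ _
  have hφ1 : φ (X 1) = C (s * a + t * c - lam * s) * X 0 + C (s * b - t * a - lam * t) * X 1 :=
    aeval_X _ _
  have hψ0 : ψ (X 0) = C (-(h2 * μ * ε) * (-(s * b - t * a - lam * t))) * X 0 +
        C (-(h2 * μ * ε) * (s * b - t * a + lam * t)) * X 1 := aeval_X _ _
  have hψ1 : ψ (X 1) = C (-(h2 * μ * ε) * (s * a + t * c - lam * s)) * X 0 +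
        C (-(h2 * μ * ε) * (-(s * a + t * c + lam * s))) * X 1 := aeval_X _ _
  have h1 : ∀ A, φ (ψ A) = A := fun A => by
    have : φ.comp ψ = AlgHom.id K _ := algHom_ext fun i => by
      fin_cases i
      · change φ (ψ (X 0)) = X 0
        rw [hψ0, map_add, map_mul φ, map_mul φ, hC, hC, hφ0, hφ1]
        simp only [map_mul, map_sub, map_add, map_neg]
        linear_combination (X 0 : Pl K) * hone'
      · change φ (ψ (X 1)) = X 1
        rw [hψ1, map_add, map_mul φ, map_mul φ, hC, hC, hφ0, hφ1]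
        simp only [map_mul, map_sub, map_add, map_neg]
        linear_combination (X 1 : Pl K) * hone'
    exact congrArg (fun f : Pl K →ₐ[K] Pl K => f A) this
  have h2' : ∀ A, ψ (φ A) = A := fun A => by
    have : ψ.comp φ = AlgHom.id K _ := algHom_ext fun i => by
      fin_cases i
      · change ψ (φ (X 0)) = X 0
        rw [hφ0, map_add, map_mul ψ, map_mul ψ, hC', hC', hψ0, hψ1]
        simp only [map_mul, map_sub, map_add, map_neg]
        linear_combination (X 0 : Pl K) * hone'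
      · change ψ (φ (X 1)) = X 1
        rw [hφ1, map_add, map_mul ψ, map_mul ψ, hC', hC', hψ0, hψ1]
        simp only [map_mul, map_sub, map_add, map_neg]
        linear_combination (X 1 : Pl K) * hone'
    exact congrArg (fun f : Pl K →ₐ[K] Pl K => f A) this
  have hφh : ∀ A : Pl K, A.IsHomogeneous n → (φ A).IsHomogeneous n := fun A hA => hom2 hA _ _ _ _
  have hψh : ∀ A : Pl K, A.IsHomogeneous n → (ψ A).IsHomogeneous n := fun A hA => hom2 hA _ _ _ _
  have hLφ : ∀ A, L (φ A) = φ (dg lam A) := fun A => by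
    refine leib_ext φ.toRingHom (fun A => L (φ A)) (fun A => φ (dg lam A)) (fun x y => ?_)
      (fun x y => ?_) (fun x y => ?_) (fun x y => ?_) (fun x => ?_) (fun i => ?_) A
    · simp only [hL, map_add]; ring
    · simp only [dg, map_add, map_mul, map_sub]; ring
    · simp only [hL, map_mul, Derivation.leibniz, smul_eq_mul, AlgHom.toRingHom_eq_coe,
        RingHom.coe_coe]
      ring
    · simp only [dg, map_add, map_mul, map_sub, Derivation.leibniz, smul_eq_mul,
        AlgHom.toRingHom_eq_coe, RingHom.coe_coe]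
      ring
    · simp [hL, hC, dg]
    · fin_cases i
      · change L (φ (X 0)) = φ (dg lam (X 0))
        have : dg lam (X 0 : Pl K) = C lam * X 0 := by simp [dg]
        rw [this, map_mul φ, hC, hφ0, hL, pd0, pd1]
        simp only [map_mul, map_sub, map_add]
        linear_combination (-(C s * X 0 + C t * X 1) : Pl K) * hlam'
      · change L (φ (X 1)) = φ (dg lam (X 1))
        have : dg lam (X 1 : Pl K) = -(C lam * X 1) := by simp [dg]
        rw [this, map_neg φ, map_mul φ, hC, hφ1, hL, pd0, pd1]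
        simp only [map_mul, map_sub, map_add]
        linear_combination (-(C s * X 0 + C t * X 1) : Pl K) * hlam'
  have hq1 : φ (X 0 * X 1) = C (-(b * s ^ 2 - 2 * a * s * t - c * t ^ 2)) * q := by
    rw [map_mul, hφ0, hφ1, hq]
    simp only [map_mul, map_sub, map_add, map_neg, map_pow, map_ofNat]
    linear_combination (-(C s * X 0 + C t * X 1) ^ 2 : Pl K) * hlam'
  have hq2 : ∀ (ρ : K) (k : ℕ), φ (C ρ * (X 0 * X 1) ^ k) =
      C (ρ * (-(b * s ^ 2 - 2 * a * s * t - c * t ^ 2)) ^ k) * q ^ k := fun ρ k => by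
    rw [map_mul φ, map_pow φ, hC, hq1, mul_pow, ← map_pow, ← mul_assoc, ← map_mul]
  refine ⟨fun G hG => ?_, fun A hA h0 => ?_, fun A ρ k h => ?_⟩
  · obtain ⟨A, ρ, hA, ho, e⟩ := dg1 hl (hψh G hG)
    refine ⟨φ A, _, hφh A hA, fun h => ?_, by rw [hLφ, ← hq2, ← map_add, ← e, h1]⟩
    rw [ho h, zero_mul]
  · have e : dg lam (ψ A) = 0 := by
      rw [← h2' (dg lam (ψ A)), ← hLφ, h1, h0, map_zero]
    obtain ⟨ρ, ho, e'⟩ := diag_only (hψh A hA) fun m hm => by
      have := coeff_dg lam (ψ A) m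
      rw [e, coeff_zero] at this
      exact (hl.mul (unit_sub hm)).mul_right_eq_zero.1 this.symm
    refine ⟨_, fun h => ?_, by rw [← hq2, ← e', h1]⟩
    rw [ho h, zero_mul]
  · have hu : (-ε) ^ k * (-(b * s ^ 2 - 2 * a * s * t - c * t ^ 2)) ^ k = 1 := by
      rw [← mul_pow, neg_mul_neg, mul_comm, hε, one_pow]
    have e : dg lam (ψ A) = C (ρ * (-ε) ^ k) * (X 0 * X 1) ^ k := by
      rw [← h2' (dg lam (ψ A)), ← hLφ, h1, h, ← h2' (C _ * (X 0 * X 1) ^ k), hq2, mul_assoc ρ, hu,
        mul_one]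
    have h3 := coeff_dg lam (ψ A) (kk k)
    rw [e, pow_kk, coeff_monomial, if_pos rfl, kk0, kk1, sub_self, mul_zero, zero_mul] at h3
    rw [← mul_one ρ, ← hu, ← mul_assoc, h3, zero_mul]

end Pool.Agent.MP_aa1ef7_ag.H20
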