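import Pool.Agent.MP_aa1ef7_ag.H20.Spec

/-! Fields and derivations for arrangements with algebraically independent coefficients. -/

namespace Pool.Agent.MP_aa1ef7_ag.H20

open Pool.Agent.MP_aa1ef7_ag.H40

namespace FldB

open Set Polynomial

theorem smooth0 (K L : Type) [Field K] [Field L] [Algebra K L] [CharZero K] :
    Algebra.FormallySmooth K L := by
  obtain ⟨s, hs⟩ := exists_isTranscendenceBasis K L
  have := hs.isAlgebraic_field
  have : CharZero (IntermediateField.adjoin K (range ((↑) : s → L))) :=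
    charZero_of_injective_algebraMap (algebraMap K _).injective
  exact .of_algebraicIndependent_of_isSeparable hs.1

/-- A transcendental element is moved by some derivation. -/
theorem exists_der (k : Subfield ℂ) {x : ℂ} (h : Transcendental k x) :
    ∃ D : Derivation ℤ ℂ ℂ, D x = 1 ∧ ∀ z ∈ k, D z = 0 := by
  let f : k[X] →ₐ[k] ℂ := aeval x
  let g : k[X] →ₐ[k] DualNumber ℂ := aeval (TrivSqZeroExt.inl x + DualNumber.eps)
  have hfg : ∀ p, (g p).fst = f p := fun p => by
    have : (TrivSqZeroExt.fstHom k ℂ ℂ).comp g = f := algHom_ext (by simp [f, g])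
    exact DFunLike.congr_fun this p
  let : Algebra k[X] ℂ := f.toRingHom.toAlgebra
  have : FaithfulSMul k[X] ℂ :=
    (faithfulSMul_iff_algebraMap_injective _ _).2 (transcendental_iff_injective.1 h)
  let := FractionRing.liftAlgebra k[X] ℂ
  have : CharZero (FractionRing k[X]) :=
    charZero_of_injective_algebraMap (IsFractionRing.injective k[X] _)
  have := smooth0 (FractionRing k[X]) ℂ
  have : Algebra.FormallySmooth k[X] (FractionRing k[X]) :=
    .of_isLocalization (nonZeroDivisors _)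
  have : Algebra.FormallySmooth k[X] ℂ := .comp _ (FractionRing k[X]) _
  let : Algebra k[X] (DualNumber ℂ) := g.toRingHom.toAlgebra
  let π : DualNumber ℂ →ₐ[k[X]] ℂ :=
    { (TrivSqZeroExt.fstHom ℂ ℂ ℂ).toRingHom with commutes' := hfg }
  have hs : Function.Surjective π := fun c => ⟨TrivSqZeroExt.inl c, rfl⟩
  have hn : IsNilpotent (RingHom.ker (π : DualNumber ℂ →+* ℂ)) := ⟨2, by
    refine (Submodule.pow_succ _ (n := 1)).trans ?_
    rw [Submodule.pow_one, Ideal.zero_eq_bot, eq_bot_iff, Ideal.mul_le]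
    intro a ha b hb
    have ha' : a.fst = 0 := ha
    have hb' : b.fst = 0 := hb
    exact TrivSqZeroExt.ext (by simp [ha']) (by simp [ha', hb'])⟩
  let l := Algebra.FormallySmooth.liftOfSurjective (AlgHom.id k[X] ℂ) π hs hn
  have h1 : ∀ c, (l c).fst = c := fun c =>
    Algebra.FormallySmooth.liftOfSurjective_apply (AlgHom.id k[X] ℂ) π hs hn c
  have h2 : ∀ p, l (f p) = g p := fun p => l.commutes p
  obtain ⟨D, hD⟩ := exists_der_of_hom (k := ℤ) l.toRingHom h1 fun c => by
    rw [eq_intCast, map_intCast, TrivSqZeroExt.snd_intCast]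
  refine ⟨D, ?_, fun z hz => ?_⟩
  · have h3 := h2 X
    simp only [f, g, aeval_X] at h3
    rw [hD]
    change (l x).snd = 1
    rw [h3]
    simp
  · have h3 := h2 (C ⟨z, hz⟩)
    simp only [f, g, aeval_C] at h3
    rw [hD]
    change (l (algebraMap k ℂ ⟨z, hz⟩)).snd = 0
    rw [h3]
    rfl

theorem alg_mono {K K' : Type} [CommRing K] [CommRing K'] [Algebra K ℂ] [Algebra K' ℂ]
    (hK : Function.Injective (algebraMap K ℂ))
    (h : ∀ x : K, algebraMap K ℂ x ∈ range (algebraMap K' ℂ)) {z : ℂ} (hz : IsAlgebraic K z) :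
    IsAlgebraic K' z := by
  obtain ⟨p, hp, hz⟩ := hz
  obtain ⟨q, hq⟩ : p.map (algebraMap K ℂ) ∈ lifts (algebraMap K' ℂ) :=
    (lifts_iff_coeff_lifts _).2 fun n => by rw [coeff_map]; exact h _
  rw [coe_mapRingHom] at hq
  refine ⟨q, ?_, ?_⟩
  · rintro rfl
    exact hp (map_injective _ hK (by rw [← hq]; simp))
  · rw [aeval_def, eval₂_eq_eval_map, hq, ← eval₂_eq_eval_map, ← aeval_def, hz]

/-- The algebraic closure of `ℚ(S)` in `ℂ`. -/
noncomputable def cl (S : Set ℂ) : Subfield ℂ :=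
  (algebraicClosure (IntermediateField.adjoin ℚ S) ℂ).toSubfield

theorem mem_cl {S : Set ℂ} {z : ℂ} : z ∈ cl S ↔ IsAlgebraic (IntermediateField.adjoin ℚ S) z :=
  mem_algebraicClosure_iff

theorem sub_cl {S : Set ℂ} {z : ℂ} (h : z ∈ S) : z ∈ cl S :=
  mem_cl.2 (isAlgebraic_algebraMap
    (⟨z, IntermediateField.subset_adjoin ℚ S h⟩ : IntermediateField.adjoin ℚ S))

theorem cl_mono {S T : Set ℂ} (h : S ⊆ T) : cl S ≤ cl T := fun _ hz =>
  mem_cl.2 (alg_mono Subtype.val_injective
    (fun x => ⟨⟨x, IntermediateField.adjoin.mono ℚ S T h x.2⟩, rfl⟩) (mem_cl.1 hz))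

theorem cl_cl {S : Set ℂ} {z : ℂ} (h : IsAlgebraic (cl S) z) : z ∈ cl S := by
  have h1 : IsAlgebraic (algebraicClosure (IntermediateField.adjoin ℚ S) ℂ) z := h
  exact mem_cl.2 (h1.restrictScalars _)

theorem alg_all {B : Set ℂ} (hB : IsTranscendenceBasis ℚ ((↑) : B → ℂ)) (T : Set ℂ) (z : ℂ) :
    IsAlgebraic (IntermediateField.adjoin (cl (B \ T)) T) z := by
  have := hB.isAlgebraic_field
  refine alg_mono Subtype.val_injective (fun x => ?_) (Algebra.IsAlgebraic.isAlgebraic
    (R := IntermediateField.adjoin ℚ (range ((↑) : B → ℂ))) z)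
  have h1 : (IntermediateField.adjoin ℚ (range ((↑) : B → ℂ))).toSubfield ≤
      (IntermediateField.adjoin (cl (B \ T)) T).toSubfield := by
    rw [IntermediateField.adjoin_toSubfield, Subfield.closure_le]
    rintro y (⟨r, rfl⟩ | ⟨y, rfl⟩)
    · exact SubfieldClass.ratCast_mem _ r
    · by_cases hy : y.1 ∈ T
      · exact IntermediateField.subset_adjoin _ _ hy
      · exact IntermediateField.algebraMap_mem _ (⟨y.1, sub_cl ⟨y.2, hy⟩⟩ : cl (B \ T))
  exact ⟨⟨x, h1 x.2⟩, rfl⟩

theorem ind_cl {B : Set ℂ} (hB : AlgebraicIndependent ℚ ((↑) : B → ℂ)) {ι : Type} (u : ι → ℂ)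
    (hu : Function.Injective u) (hub : ∀ i, u i ∈ B) :
    AlgebraicIndependent (cl (B \ range u)) u := by
  have h1 := hB.adjoin_of_disjoint (s := {b : B | b.1 ∉ range u}) (t := {b : B | b.1 ∈ range u})
    (disjoint_left.2 fun _ h h' => h h')
  have h2 : ((↑) : B → ℂ) '' {b : B | b.1 ∉ range u} = B \ range u := by
    ext y
    exact ⟨fun ⟨b, hb, e⟩ => e ▸ ⟨b.2, hb⟩, fun h => ⟨⟨y, h.1⟩, h.2, rfl⟩⟩
  rw [h2] at h1
  have h3 := h1.comp (fun i => (⟨⟨u i, hub i⟩, i, rfl⟩ : {b : B | b.1 ∈ range u}))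
    fun i j h => hu (congrArg (fun b : {b : B | b.1 ∈ range u} => (b.1.1 : ℂ)) h)
  exact (IntermediateField.algebraicIndependent_adjoin_iff.2 h3).algebraicClosure

open MvPolynomial in
theorem geo {d : ℕ} {l : Fin (d + 1) → ℂ × ℂ × ℂ} (hd : 2 ≤ d)
    (h : AlgebraicIndependent ℚ (coef l)) : Geo l := by
  have key : ∀ (p : MvPolynomial (Fin (d + 1) × Fin 3) ℚ) (v : Fin (d + 1) × Fin 3 → ℚ),
      MvPolynomial.eval v p ≠ 0 → MvPolynomial.aeval (coef l) p ≠ 0 := fun p v hv h0 =>
    hv (by rw [h.eq_zero_of_aeval_eq_zero p h0, map_zero])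
  refine ⟨hd, ⟨fun i j hij => ?_, fun i j k hij hik hjk p hp => ?_⟩, fun m => ?_⟩
  · have := key (X (i, 0) * X (j, 1) - X (j, 0) * X (i, 1))
      (fun x => if x = (i, 0) ∨ x = (j, 1) then 1 else 0) (by simp [hij, hij.symm])
    simpa [coef] using this
  · have := key (X (i, 0) * (X (j, 1) * X (k, 2) - X (k, 1) * X (j, 2))
        - X (i, 1) * (X (j, 0) * X (k, 2) - X (k, 0) * X (j, 2))
        + X (i, 2) * (X (j, 0) * X (k, 1) - X (k, 0) * X (j, 1)))
      (fun x => if x = (i, 0) ∨ x = (j, 1) ∨ x = (k, 2) then 1 else 0)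
      (by simp [hij, hij.symm, hik, hik.symm, hjk, hjk.symm])
    apply this
    obtain ⟨h1, h2, h3⟩ := hp
    simp only [lin, map_add, map_mul, MvPolynomial.eval_C, MvPolynomial.eval_X] at h1 h2 h3
    simp only [map_add, map_sub, map_mul, MvPolynomial.aeval_X, coef, Matrix.cons_val_zero,
      Matrix.cons_val_one, Matrix.cons_val]
    linear_combination ((l j).1 * (l k).2.1 - (l k).1 * (l j).2.1) * h1
      - ((l i).1 * (l k).2.1 - (l k).1 * (l i).2.1) * h2
      + ((l i).1 * (l j).2.1 - (l j).1 * (l i).2.1) * h3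
  · have := key (X (m, 1)) (fun _ => 1) (by simp)
    simpa [coef] using this

end FldB

open FldB Set

theorem fldB : FldS := by
  intro d l hd h
  refine ⟨geo hd h, ?_⟩
  obtain ⟨B, hsub, hB⟩ := exists_isTranscendenceBasis_superset h.to_subtype_range
  have hmem : ∀ x, coef l x ∈ B := fun x => hsub ⟨x, rfl⟩
  let u : Fin (d + 1) → ℂ := fun i => (l i).2.2
  have hu : ∀ i, u i = coef l (i, 2) := fun _ => rfl
  have hinj : Function.Injective u := fun i j e => congrArg Prod.fst (h.injective (a₁ := (i, 2))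
    (a₂ := (j, 2)) e)
  have htr : ∀ i, Transcendental (cl (B \ {u i})) (u i) := fun i => by
    have h1 := ind_cl hB.1 (fun _ : Unit => u i) (Function.injective_of_subsingleton _)
      fun _ => hmem (i, 2)
    rw [range_const] at h1
    exact h1.transcendental ()
  choose δ h1 h2 using fun i => exists_der _ (htr i)
  have hoff : ∀ (m : Fin (d + 1)) (c : Fin 3), c ≠ 2 → coef l (m, c) ∈ cl (B \ range u) :=
    fun m c hc => sub_cl ⟨hmem _, fun ⟨i, e⟩ =>
      hc (congrArg Prod.snd (h.injective (a₁ := (i, 2)) (a₂ := (m, c)) e)).symm⟩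
  exact ⟨{
    k0 := cl (B \ range u)
    k := fun i => cl (B \ {u i})
    δ := δ
    dir0 := fun m => ⟨hoff m 0 (by decide), hoff m 1 (by decide)⟩
    le := fun i => cl_mono (sdiff_subset_sdiff_right (singleton_subset_iff.2 ⟨i, rfl⟩))
    mem := fun i j hj => sub_cl ⟨hmem (j, 2), fun e => hj (hinj e)⟩
    cl0 := fun _ => cl_cl
    cl := fun _ _ => cl_cl
    ind := ind_cl hB.1 u hinj fun i => hmem (i, 2)
    alg0 := alg_all hB _
    alg := fun _ => alg_all hB _
    dz := h2
    du := h1 }⟩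

end Pool.Agent.MP_aa1ef7_ag.H20
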